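import Pool.Agent.Helper45_PGF.GrassDefs
import Pool.Agent.Helper64_PGF.Cor

/-!
# Squad PGF: modules GR and GRM (Grassmannian of lines)
-/

set_option autoImplicit false

open Polynomial CategoryTheory AlgebraicGeometry

universe u v₂ v₃ v₄

namespace Pool.Agent.PGF.H69

open Pool.Agent.PGF

section dec

variable {k : Type u} [Field k] {n : ℕ}

/-- the first three indices -/
def i0 (hn : 3 ≤ n) : Fin n := ⟨0, by omega⟩

def i1 (hn : 3 ≤ n) : Fin n := ⟨1, by omega⟩

def i2 (hn : 3 ≤ n) : Fin n := ⟨2, by omega⟩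

theorem h01 (hn : 3 ≤ n) : i0 hn < i1 hn := by
  rw [Fin.lt_def]; exact Nat.zero_lt_one

theorem h12 (hn : 3 ≤ n) : i1 hn < i2 hn := by
  rw [Fin.lt_def]; exact Nat.one_lt_two

theorem h02 (hn : 3 ≤ n) : i0 hn < i2 hn := (h01 hn).trans (h12 hn)

/-- the pair `(0, 1)` -/
def p01 (hn : 3 ≤ n) : Pairs n := ⟨(i0 hn, i1 hn), h01 hn⟩

/-- the pair `(1, 2)` -/
def p12 (hn : 3 ≤ n) : Pairs n := ⟨(i1 hn, i2 hn), h12 hn⟩

/-- the first vector -/
noncomputable def uu (hn : 3 ≤ n) (z : Pairs n → k) (j : Fin n) : k :=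
  if h : i1 hn < j then -(z ⟨(i1 hn, j), h⟩) / z (p01 hn) else if j = i0 hn then 1 else 0

/-- the second vector -/
noncomputable def vv (hn : 3 ≤ n) (z : Pairs n → k) (j : Fin n) : k :=
  if h : i0 hn < j then z ⟨(i0 hn, j), h⟩ else 0

theorem uu_zero (hn : 3 ≤ n) (z : Pairs n → k) : uu hn z (i0 hn) = 1 := by
  unfold uu
  rw [dif_neg (not_lt.mpr (h01 hn).le), if_pos rfl]

theorem uu_one (hn : 3 ≤ n) (z : Pairs n → k) : uu hn z (i1 hn) = 0 := by
  unfold uu
  rw [dif_neg (lt_irrefl _), if_neg (h01 hn).ne']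

theorem uu_of (hn : 3 ≤ n) (z : Pairs n → k) {j : Fin n} (h : i1 hn < j) :
    uu hn z j = -(z ⟨(i1 hn, j), h⟩) / z (p01 hn) := by
  unfold uu
  rw [dif_pos h]

theorem vv_zero (hn : 3 ≤ n) (z : Pairs n → k) : vv hn z (i0 hn) = 0 := by
  unfold vv
  rw [dif_neg (lt_irrefl _)]

theorem vv_of (hn : 3 ≤ n) (z : Pairs n → k) {j : Fin n} (h : i0 hn < j) :
    vv hn z j = z ⟨(i0 hn, j), h⟩ := by
  unfold vv
  rw [dif_pos h]

/-- decomposition of a point of the Grassmannian -/
theorem dec (hn : 3 ≤ n) (z : Pairs n → k) (hz : ∀ l, z l ≠ 0)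
    (hpl : ∀ F ∈ plucker k n, MvPolynomial.eval z F = 0) (i j : Fin n) (h : i < j) :
    uu hn z i * vv hn z j - uu hn z j * vv hn z i = z ⟨(i, j), h⟩ := by
  have hz01 := hz (p01 hn)
  by_cases hi0 : i = i0 hn
  · subst hi0
    rw [uu_zero, vv_zero, vv_of hn z h]
    ring
  · have hi0' : i0 hn < i := by
      rw [Fin.lt_def]
      have h1 : i.val ≠ 0 := fun h2 => hi0 (Fin.ext h2)
      exact Nat.pos_of_ne_zero h1
    by_cases hi1 : i = i1 hn
    · subst hi1
      rw [uu_one, uu_of hn z h, vv_of hn z (h01 hn)]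
      change 0 * vv hn z j - -(z ⟨(i1 hn, j), h⟩) / z (p01 hn) * z (p01 hn) = _
      field_simp
      ring
    · have hi1' : i1 hn < i := by
        rw [Fin.lt_def]
        have h1 : i.val ≠ 0 := fun h2 => hi0 (Fin.ext h2)
        have h2 : i.val ≠ 1 := fun h2 => hi1 (Fin.ext h2)
        change 1 < i.val
        omega
      have hrel := hpl _ ⟨i0 hn, i1 hn, i, j, h01 hn, hi1', h, rfl⟩
      simp only [map_add, map_sub, map_mul, MvPolynomial.eval_X] at hrel
      rw [uu_of hn z hi1', uu_of hn z (hi1'.trans h), vv_of hn z hi0', vv_of hn z (hi0'.trans h)]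
      have hrel' : z (p01 hn) * z ⟨(i, j), h⟩ -
          z ⟨(i0 hn, i), (h01 hn).trans hi1'⟩ * z ⟨(i1 hn, j), hi1'.trans h⟩ +
          z ⟨(i0 hn, j), ((h01 hn).trans hi1').trans h⟩ * z ⟨(i1 hn, i), hi1'⟩ = 0 := hrel
      rw [div_mul_eq_mul_div, div_mul_eq_mul_div, ← sub_div, div_eq_iff hz01]
      linear_combination -hrel'

end dec

section arc

variable (k : Type u) [Field k] {n : ℕ} (hn : 3 ≤ n) (z : Pairs n → k)

/-- the field of the parameters -/
abbrev EE (k : Type u) [Field k] (n : ℕ) : Type u := FractionRing (MvPolynomial (Fin n) k)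

/-- the parameters -/
noncomputable def xv (j : Fin n) : EE k n :=
  algebraMap (MvPolynomial (Fin n) k) (EE k n) (MvPolynomial.X j)

theorem xv_ne {i j : Fin n} (h : i ≠ j) : xv k i ≠ xv k j := by
  intro h1
  exact h (MvPolynomial.X_injective (IsFractionRing.injective (MvPolynomial (Fin n) k) (EE k n) h1))

/-- the tangent vector -/
noncomputable def cc (j : Fin n) : EE k n :=
  if i1 hn < j then (xv k j - xv k (i0 hn)) * algebraMap k (EE k n) (vv hn z j) else 0

/-- the coefficient `ρ` -/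
noncomputable def rho : EE k n :=
  (xv k (i1 hn) - xv k (i0 hn)) * algebraMap k (EE k n) (z (p12 hn)) / cc k hn z (i2 hn)

/-- the first vector, moved -/
noncomputable def aa (j : Fin n) : EE k n :=
  algebraMap k (EE k n) (uu hn z j) +
    rho k hn z / algebraMap k (EE k n) (z (p01 hn)) * algebraMap k (EE k n) (vv hn z j)

/-- the slopes -/
noncomputable def qq (l : Pairs n) : EE k n :=
  xv k (i0 hn) + (aa k hn z l.1.1 * cc k hn z l.1.2 - aa k hn z l.1.2 * cc k hn z l.1.1) /
    algebraMap k (EE k n) (z l)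

/-- the second vector, as a polynomial in the time -/
noncomputable def bb (j : Fin n) : (EE k n)[X] :=
  C (algebraMap k (EE k n) (vv hn z j)) * (1 + C (xv k (i0 hn)) * X) + C (cc k hn z j) * X

/-- the arc -/
noncomputable def pp (l : Pairs n) : (EE k n)[X] := 1 + C (qq k hn z l) * X

variable {k} {z}

theorem zE_ne (hz : ∀ l, z l ≠ 0) (l : Pairs n) : algebraMap k (EE k n) (z l) ≠ 0 :=
  (_root_.map_ne_zero _).mpr (hz l)

theorem aa_vv (hz : ∀ l, z l ≠ 0) (hpl : ∀ F ∈ plucker k n, MvPolynomial.eval z F = 0)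
    (l : Pairs n) :
    aa k hn z l.1.1 * algebraMap k (EE k n) (vv hn z l.1.2) -
      aa k hn z l.1.2 * algebraMap k (EE k n) (vv hn z l.1.1) = algebraMap k (EE k n) (z l) := by
  have h := congrArg (algebraMap k (EE k n)) (dec hn z hz hpl l.1.1 l.1.2 l.2)
  rw [map_sub, map_mul, map_mul] at h
  unfold aa
  linear_combination h

/-- the arc is decomposable -/
theorem decP (hz : ∀ l, z l ≠ 0) (hpl : ∀ F ∈ plucker k n, MvPolynomial.eval z F = 0)
    (l : Pairs n) :
    C (algebraMap k (EE k n) (z l)) * pp k hn z l =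
      C (aa k hn z l.1.1) * bb k hn z l.1.2 - C (aa k hn z l.1.2) * bb k hn z l.1.1 := by
  have h1 := congrArg (C : EE k n → (EE k n)[X]) (aa_vv hn hz hpl l)
  have h2 : algebraMap k (EE k n) (z l) * qq k hn z l =
      algebraMap k (EE k n) (z l) * xv k (i0 hn) +
        (aa k hn z l.1.1 * cc k hn z l.1.2 - aa k hn z l.1.2 * cc k hn z l.1.1) := by
    unfold qq
    rw [mul_add, mul_div_cancel₀ _ (zE_ne hz l)]
  have h3 := congrArg (C : EE k n → (EE k n)[X]) h2
  simp only [C_mul, C_add, C_sub] at h1 h3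
  unfold pp bb
  linear_combination X * h3 - (1 + C (xv k (i0 hn)) * X) * h1

theorem arc_rel (hz : ∀ l, z l ≠ 0) (hpl : ∀ F ∈ plucker k n, MvPolynomial.eval z F = 0)
    (F : MvPolynomial (Pairs n) k) (hF : F ∈ plucker k n) :
    MvPolynomial.aeval (fun l => C (algebraMap k (EE k n) (z l)) * pp k hn z l) F = 0 := by
  obtain ⟨i, j, a, b, hij, hja, hab, rfl⟩ := hF
  simp only [map_add, map_sub, map_mul, MvPolynomial.aeval_X]
  simp only [decP hn hz hpl]
  ring

theorem cc_i0 : cc k hn z (i0 hn) = 0 := by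
  unfold cc
  rw [if_neg (not_lt.mpr (h01 hn).le)]

theorem cc_i1 : cc k hn z (i1 hn) = 0 := by
  unfold cc
  rw [if_neg (lt_irrefl _)]

theorem cc_i2_ne (hz : ∀ l, z l ≠ 0) : cc k hn z (i2 hn) ≠ 0 := by
  unfold cc
  rw [if_pos (h12 hn), vv_of hn z (h02 hn)]
  exact mul_ne_zero (sub_ne_zero.mpr (xv_ne k (h02 hn).ne')) (zE_ne hz _)

theorem qq01 : qq k hn z (p01 hn) = xv k (i0 hn) := by
  unfold qq
  change xv k (i0 hn) + (aa k hn z (i0 hn) * cc k hn z (i1 hn) -
    aa k hn z (i1 hn) * cc k hn z (i0 hn)) / _ = _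
  rw [cc_i0, cc_i1]
  simp

theorem qq12 (hz : ∀ l, z l ≠ 0) : qq k hn z (p12 hn) = xv k (i1 hn) := by
  unfold qq
  change xv k (i0 hn) + (aa k hn z (i1 hn) * cc k hn z (i2 hn) -
    aa k hn z (i2 hn) * cc k hn z (i1 hn)) / algebraMap k (EE k n) (z (p12 hn)) = _
  have h1 : aa k hn z (i1 hn) = rho k hn z := by
    unfold aa
    rw [uu_one, vv_of hn z (h01 hn), map_zero, zero_add]
    exact div_mul_cancel₀ _ (zE_ne hz (p01 hn))
  rw [cc_i1, h1, mul_zero, sub_zero]
  unfold rho
  rw [div_mul_cancel₀ _ (cc_i2_ne hn hz), mul_div_cancel_right₀ _ (zE_ne hz _)]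
  ring

theorem qq0j (hz : ∀ l, z l ≠ 0) {j : Fin n} (h : i1 hn < j) :
    qq k hn z ⟨(i0 hn, j), (h01 hn).trans h⟩ = xv k j := by
  unfold qq
  change xv k (i0 hn) + (aa k hn z (i0 hn) * cc k hn z j -
    aa k hn z j * cc k hn z (i0 hn)) / algebraMap k (EE k n) (z ⟨(i0 hn, j), (h01 hn).trans h⟩) = _
  have h1 : aa k hn z (i0 hn) = 1 := by
    unfold aa
    rw [uu_zero, vv_zero, map_one, map_zero, mul_zero, add_zero]
  have h2 : cc k hn z j = (xv k j - xv k (i0 hn)) *
      algebraMap k (EE k n) (z ⟨(i0 hn, j), (h01 hn).trans h⟩) := by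
    unfold cc
    rw [if_pos h, vv_of hn z ((h01 hn).trans h)]
  rw [cc_i0, h1, mul_zero, sub_zero, one_mul, h2, mul_div_cancel_right₀ _ (zE_ne hz _)]
  ring

/-- the coordinates of the arc which are the parameters -/
noncomputable def sel (j : Fin n) : Pairs n :=
  if h : i1 hn < j then ⟨(i0 hn, j), (h01 hn).trans h⟩ else if j = i0 hn then p01 hn else p12 hn

theorem qq_sel (hz : ∀ l, z l ≠ 0) (j : Fin n) : qq k hn z (sel hn j) = xv k j := by
  unfold sel
  split_ifs with h1 h2
  · exact qq0j hn hz h1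
  · rw [h2]
    exact qq01 hn
  · have h3 : j = i1 hn := by
      apply Fin.ext
      have h4 : ¬ 1 < j.val := h1
      have h5 : j.val ≠ 0 := fun h6 => h2 (Fin.ext h6)
      change j.val = 1
      omega
    rw [h3]
    exact qq12 hn hz

theorem pp_coeff_one (l : Pairs n) : (pp k hn z l).coeff 1 = qq k hn z l := by
  unfold pp
  rw [coeff_add, coeff_C_mul, coeff_X_one, mul_one, coeff_one, if_neg one_ne_zero, zero_add]

theorem pp_coeff_zero (l : Pairs n) : (pp k hn z l).coeff 0 = 1 := by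
  unfold pp
  rw [coeff_add, coeff_C_mul, coeff_X_zero, mul_zero, coeff_one_zero, add_zero]

theorem pp_natDegree (l : Pairs n) : (pp k hn z l).natDegree ≤ 1 := by
  unfold pp
  refine (natDegree_add_le _ _).trans (max_le ?_ ?_)
  · rw [natDegree_one]; exact Nat.zero_le _
  · exact (natDegree_C_mul_le _ _).trans natDegree_X_le

end arc

/-- GR -/
theorem gr : GRStmt.{u, v₂} := by
  intro k _ _ n ι m a g z hn hg hz hpl hgz
  have hp0 := pp_coeff_zero (k := k) hn (z := z)
  have hpd := pp_natDegree (k := k) hn (z := z)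
  let E := EE k n
  let G : ι → E[X] := fun i =>
    MvPolynomial.aeval (fun l => C (algebraMap k E (z l)) * pp k hn z l) (g i)
  have hG0 : ∀ i, (G i).coeff 0 = algebraMap k E (MvPolynomial.eval z (g i)) := by
    intro i
    have h : ((Polynomial.aeval (0 : E)).restrictScalars k).comp
        (MvPolynomial.aeval (fun l => C (algebraMap k E (z l)) * pp k hn z l) :
          MvPolynomial (Pairs n) k →ₐ[k] E[X]) =
        (Algebra.ofId k E).comp (MvPolynomial.aeval z : MvPolynomial (Pairs n) k →ₐ[k] k) := by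
      apply MvPolynomial.algHom_ext
      intro l
      rw [AlgHom.comp_apply, AlgHom.comp_apply, MvPolynomial.aeval_X, MvPolynomial.aeval_X,
        AlgHom.restrictScalars_apply, Polynomial.coe_aeval_eq_eval, eval_mul, eval_C,
        ← coeff_zero_eq_eval_zero, hp0, mul_one]
      rfl
    have h1 := DFunLike.congr_fun h (g i)
    rw [AlgHom.comp_apply, AlgHom.comp_apply, AlgHom.restrictScalars_apply,
      Polynomial.coe_aeval_eq_eval, ← coeff_zero_eq_eval_zero] at h1
    exact h1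
  have hGd : ∀ i, (G i).natDegree ≤ m i * a i := by
    intro i
    refine (PGE.natDegree_aeval_le (fun _ => 1) (g i) _ fun l => ?_).trans
      (PGE.wtd_le (fun _ => 1) _ _ (hg i))
    exact (natDegree_C_mul_le _ _).trans (hpd l)
  have hne0 : ∀ i, algebraMap k E (MvPolynomial.eval z (g i)) ≠ 0 := fun i =>
    (_root_.map_ne_zero _).mpr (hgz i)
  refine ⟨E, inferInstance, inferInstance, pp k hn z,
    fun i => C (algebraMap k E (MvPolynomial.eval z (g i)))⁻¹ * G i, fun _ => 1,
    ⟨hp0, fun l => ?_, fun F hF => arc_rel hn hz hpl F hF⟩,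
    ?_, fun i => ⟨?_, ?_, ?_, ?_⟩, fun j => (sel hn j, 1), ?_⟩
  · exact hpd l
  · intro hconst
    have h1 := hconst (p01 hn) (p12 hn)
    rw [pow_one, pow_one] at h1
    have h2 : (pp k hn z (p01 hn)).coeff 1 = (pp k hn z (p12 hn)).coeff 1 := by rw [h1]
    rw [pp_coeff_one, pp_coeff_one, qq01, qq12 hn hz] at h2
    exact xv_ne k (h01 hn).ne h2
  · exact (natDegree_C_mul_le _ _).trans (hGd i)
  · rw [coeff_C_mul, hG0, inv_mul_cancel₀ (hne0 i)]
  · exact coeff_one_zero
  · rw [one_pow, mul_one, ← mul_assoc, ← C_mul, mul_inv_cancel₀ (hne0 i), C_1, one_mul]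
  · have h1 : (fun j : Fin n => (pp k hn z (sel hn j)).coeff 1) =
        fun j => (IsScalarTower.toAlgHom k (MvPolynomial (Fin n) k) E) (MvPolynomial.X j) := by
      funext j
      rw [pp_coeff_one, qq_sel hn hz]
      rfl
    change AlgebraicIndependent k (fun j : Fin n => (pp k hn z (sel hn j)).coeff 1)
    rw [h1]
    exact (MvPolynomial.algebraicIndependent_X (Fin n) k).map'
      (f := IsScalarTower.toAlgHom k (MvPolynomial (Fin n) k) E) (IsFractionRing.injective _ _)

/-- the Plücker relations are quadratic -/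
theorem plucker_hom {k : Type u} [Field k] {n : ℕ} (F : MvPolynomial (Pairs n) k)
    (hF : F ∈ plucker k n) : F.IsWeightedHomogeneous (fun _ : Pairs n => 1) 2 := by
  obtain ⟨i, j, a, b, hij, hja, hab, rfl⟩ := hF
  have hX : ∀ l l' : Pairs n, ((MvPolynomial.X l * MvPolynomial.X l' :
      MvPolynomial (Pairs n) k)).IsHomogeneous 2 := fun l l' =>
    (MvPolynomial.isHomogeneous_X k l).mul (MvPolynomial.isHomogeneous_X k l')
  have h : (MvPolynomial.X ⟨(i, j), hij⟩ * MvPolynomial.X ⟨(a, b), hab⟩ -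
      MvPolynomial.X ⟨(i, a), hij.trans hja⟩ * MvPolynomial.X ⟨(j, b), hja.trans hab⟩ +
      MvPolynomial.X ⟨(i, b), (hij.trans hja).trans hab⟩ * MvPolynomial.X ⟨(j, a), hja⟩ :
      MvPolynomial (Pairs n) k).IsHomogeneous 2 := ((hX _ _).sub (hX _ _)).add (hX _ _)
  exact h

/-- GRM -/
theorem grm (hgr : GRStmt.{u, v₂}) (hF : MAINFStmt.{u, 0, v₂, v₃, v₄}) :
    GRMainStmt.{u, v₂, v₃, v₄} := by
  intro k _ _ _ X f _ _ n ι τ _ _ m a d g h K _ θ x y hn hm hg hh hx hy hP hθ hfin hnum
  classical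
  refine hF k X f (Pairs n) ι τ (fun _ => 1) (plucker k n) m a a d 1 n g h K θ x y ?_
    (fun F hF' => ⟨2, plucker_hom F hF'⟩) hm hg hh hx hy hP hθ hfin ?_ hnum
  · have h1 : (Finset.univ : Finset (Pairs n)).gcd (fun _ => 1) ∣ 1 :=
      Finset.gcd_dvd (Finset.mem_univ (p01 hn))
    exact Nat.dvd_one.mp h1
  · refine ⟨(∏ l, MvPolynomial.X (Sum.inl l)) * ∏ i, MvPolynomial.X (Sum.inr i), ?_, ?_⟩
    · rw [MvPolynomial.eval₂_mul, MvPolynomial.eval₂_prod, MvPolynomial.eval₂_prod]
      refine mul_ne_zero (Finset.prod_ne_zero_iff.mpr fun l _ => ?_)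
        (Finset.prod_ne_zero_iff.mpr fun i _ => ?_)
      · rw [MvPolynomial.eval₂_X]
        exact hx l
      · rw [MvPolynomial.eval₂_X]
        exact hy i
    · intro z y₀ hrel hq
      rw [map_mul, map_prod, map_prod] at hq
      have hy0 : ∀ i, y₀ i ≠ 0 := by
        intro i
        have h1 := Finset.prod_ne_zero_iff.mp (right_ne_zero_of_mul hq) i (Finset.mem_univ i)
        rw [MvPolynomial.eval_X] at h1
        exact h1
      have hz0 : ∀ l, z l ≠ 0 := by
        intro l
        have h1 := Finset.prod_ne_zero_iff.mp (left_ne_zero_of_mul hq) l (Finset.mem_univ l)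
        rw [MvPolynomial.eval_X] at h1
        exact h1
      have hpl : ∀ F ∈ plucker k n, MvPolynomial.eval z F = 0 := by
        intro F hF'
        have h1 := hrel (MvPolynomial.rename (Sum.inl : Pairs n → Pairs n ⊕ ι) F) (by
          have h2 := hP.1.2 (Ideal.subset_span (Or.inl (Or.inl ⟨F, hF', rfl⟩)) :
            MvPolynomial.rename (Sum.inl : Pairs n → Pairs n ⊕ ι) F ∈
              towerIdeal (plucker k n) m g h)
          exact h2)
        rw [MvPolynomial.eval_rename] at h1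
        exact h1
      have hgz : ∀ i, MvPolynomial.eval z (g i) ≠ 0 := by
        intro i
        have h1 := hrel (MvPolynomial.X (Sum.inr i) ^ m i -
          MvPolynomial.rename (Sum.inl : Pairs n → Pairs n ⊕ ι) (g i)) (by
            have h2 := hP.1.2 (Ideal.subset_span (Or.inr ⟨i, rfl⟩) :
              MvPolynomial.X (Sum.inr i) ^ m i -
              MvPolynomial.rename (Sum.inl : Pairs n → Pairs n ⊕ ι) (g i) ∈
                towerIdeal (plucker k n) m g h)
            exact h2)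
        rw [map_sub, map_pow, MvPolynomial.eval_X, MvPolynomial.eval_rename, sub_eq_zero] at h1
        have h3 : MvPolynomial.eval (Sum.elim z y₀ ∘ Sum.inl) (g i) = MvPolynomial.eval z (g i) := rfl
        rw [h3] at h1
        rw [← h1]
        exact pow_ne_zero _ (hy0 i)
      refine ⟨?_, hgr k n ι m a g z hn hg hz0 hpl hgz⟩
      intro e' he' p hp
      have he0 : e' = 0 := by omega
      subst he0
      have h1 : ∀ l, p l = 1 := by
        intro l
        have h2 := hp.2.1 l
        rw [zero_mul] at h2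
        rw [eq_C_of_natDegree_eq_zero (Nat.le_zero.mp h2), hp.1 l, C_1]
      intro l l'
      rw [h1, h1]

end Pool.Agent.PGF.H69
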